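import Pool.Agent.Lib_MP_70e04f_nine.ClassT

/-!
The SHGH conjecture for plane linear systems with many arbitrary multiplicities and any number of
smaller ones, by means of an arbitrary plane curve class.
-/

namespace Pool.Agent.Results.MP_70e04f_ag.CurveClass

/-- For general points `p i` of the affine plane the space of curves of degree at most `d` with
multiplicity at least `mult i` at `p i` has the expected dimension `max 0 χ`. -/
def Expected {n : ℕ} (d : ℕ) (mult : Fin n → ℕ) : Prop :=
  ∃ g : MvPolynomial (Fin n × Fin 2) ℂ, g ≠ 0 ∧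
    ∀ p : Fin n → Fin 2 → ℂ,
      MvPolynomial.eval (fun q : Fin n × Fin 2 => p q.1 q.2) g ≠ 0 →
        ((2 : ℤ) * ((Module.finrank ℂ
            ↥(MvPolynomial.restrictTotalDegree (Fin 2) ℂ d ⊓
              ⨅ i : Fin n, Submodule.restrictScalars ℂ
                ((RingHom.ker (MvPolynomial.eval (p i)) :
                    Ideal (MvPolynomial (Fin 2) ℂ)) ^ mult i)) : ℕ) : ℤ)
          = max 0 (((d : ℤ) + 1) * ((d : ℤ) + 2) -
              ∑ i, (mult i : ℤ) * ((mult i : ℤ) + 1)))

/-- Let `T` be a set of indices; the multiplicities outside `T` are at most `M`, and at most `s` of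
them exceed `m`, where `2 m ≤ M`. Let `C = (k; c_i (i ∈ T))` be a class of plane curves of degree
`k` with `k ^ 2 - ∑ c_i ^ 2 > 7 m + s`, with `3 k - ∑ c_i ≥ 1` and such that any at most three of
the `c_i` have sum at most `k`. Suppose that `F = L - (M + 1) C`, where `L = (d; mult i (i ∈ T))`,
has the same properties: nonnegative multiplicities, any at most three of them have sum at most the
degree, and their total sum is at most three times the degree. Then the whole system, with all the
points outside `T`, has the expected dimension in degree `d`, and in all degrees `D ≤ d` if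
`(d + 1) (d + 2) ≤ ∑ mult i (mult i + 1)`. -/
theorem result :
    ∀ (n k m s M d D : ℕ) (mult c : Fin n → ℕ) (T : Finset (Fin n)),
      7 * m + s + ∑ i ∈ T, c i ^ 2 < k ^ 2 → 2 * m ≤ M → (∀ i, i ∉ T → mult i ≤ M) →
      (Finset.univ.filter (fun i => i ∉ T ∧ m < mult i)).card ≤ s →
      (∀ U ⊆ T, U.card ≤ 3 → ∑ i ∈ U, c i ≤ k) → ∑ i ∈ T, c i + 1 ≤ 3 * k →
      (∀ i ∈ T, (M + 1) * c i ≤ mult i) →
      (∀ U ⊆ T, U.card ≤ 3 → ∑ i ∈ U, mult i + (M + 1) * k ≤ d + (M + 1) * ∑ i ∈ U, c i) →
      ∑ i ∈ T, mult i + 3 * ((M + 1) * k) ≤ 3 * d + (M + 1) * ∑ i ∈ T, c i →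
      (D = d ∨ D ≤ d ∧ (d + 1) * (d + 2) ≤ ∑ i, mult i * (mult i + 1)) →
      Expected D mult :=
  fun n k m s M d D mult c T h7 hM hmm hs hC3 hCK hFm hF3 hFK hD =>
    Pool.MP_70e04f_ag.Nine.gen_class n k m s M d D mult c T h7 hM hmm hs hC3 hCK hFm hF3 hFK hD

end Pool.Agent.Results.MP_70e04f_ag.CurveClass
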